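import Pool.Agent.R107.TriBound

/-!
# Ratio and root monotonicity for the sums of cubes of the trinomial coefficients
-/

set_option autoImplicit false

namespace Pool.Agent.Results.MP_b41085_nt.RatioRoot

open Finset Filter Topology Nat Pool.Agent.R107.Tri

/-- The sum of the cubes of the trinomial coefficients `n! / (i! j! (n - i - j)!)`,
over all `i, j ≥ 0` with `i + j ≤ n`. -/
def S (n : ℕ) : ℕ :=
  ∑ i ∈ range (n + 1), ∑ j ∈ range (n + 1 - i), (n ! / (i ! * j ! * (n - i - j)!)) ^ 3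

/-- The ratio `S (n+1) / S n`. -/
noncomputable def a (n : ℕ) : ℝ := (S (n + 1) : ℝ) / S n

/-- The root ratio `S (n+1) ^ (1/(n+1)) / S n ^ (1/n)`. -/
noncomputable def b (n : ℕ) : ℝ :=
  (S (n + 1) : ℝ) ^ (1 / ((n : ℝ) + 1)) / (S n : ℝ) ^ (1 / (n : ℝ))

theorem tri_eq (n i j : ℕ) (hi : i ≤ n) (hj : j ≤ n - i) :
    n ! / (i ! * j ! * (n - i - j)!) = n.choose i * (n - i).choose j := by
  have h1 := Nat.choose_mul_factorial_mul_factorial hi
  have h2 := Nat.choose_mul_factorial_mul_factorial hj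
  apply Nat.div_eq_of_eq_mul_left (by positivity)
  calc n ! = n.choose i * i ! * (n - i)! := h1.symm
    _ = n.choose i * i ! * ((n - i).choose j * j ! * (n - i - j)!) := by rw [h2]
    _ = _ := by ring

theorem S_eq (n : ℕ) : (S n : ℝ) = s n := by
  unfold S s
  push_cast
  rw [← Finset.sum_flip (fun k => ((n.choose k : ℕ) : ℝ) ^ 3 * fr k)]
  apply sum_congr rfl
  intro i hi
  have hi' : i ≤ n := by simp only [mem_range] at hi; omega
  unfold fr
  rw [mul_sum]
  have e : n + 1 - i = n - i + 1 := by omega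
  rw [e]
  have e2 : (n.choose (n - i)) = n.choose i := Nat.choose_symm hi'
  rw [e2]
  apply sum_congr rfl
  intro j hj
  have hj' : j ≤ n - i := by simp only [mem_range] at hj; omega
  have h := tri_eq n i j hi' hj'
  have h' : ((n ! / (i ! * j ! * (n - i - j)!) : ℕ) : ℝ) = (n.choose i : ℝ) * ((n - i).choose j : ℝ) := by
    rw [h]; push_cast; ring
  rw [h']; ring

theorem a_eq (n : ℕ) : a n = s (n + 1) / s n := by
  unfold a; rw [S_eq, S_eq]

/-- lower bound -/
theorem a_lower (m : ℕ) : 27 * (2 * ((m : ℝ) + 2) ^ 2 + 1) / (2 * ((m : ℝ) + 3) ^ 2) ≤ a (m + 2) := by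
  rw [a_eq, div_le_div_iff₀ (by positivity) (s_pos _)]
  have := (bounds m).1.1
  linarith

theorem a_upper (m : ℕ) : a (m + 2) ≤ 27 * (((m : ℝ) + 2) ^ 2 + 1) / ((m : ℝ) + 3) ^ 2 := by
  rw [a_eq, div_le_div_iff₀ (s_pos _) (by positivity)]
  have := (bounds m).1.2
  linarith

theorem a_step (m : ℕ) : a (m + 2) < a (m + 3) := by
  have h1 := a_upper m
  have h2 := a_lower (m + 1)
  refine lt_of_le_of_lt h1 (lt_of_lt_of_le ?_ h2)
  push_cast
  have hm : (0 : ℝ) ≤ m := Nat.cast_nonneg m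
  rw [div_lt_div_iff₀ (by positivity) (by positivity)]
  have e : 27 * (2 * ((m : ℝ) + 1 + 2) ^ 2 + 1) * ((m : ℝ) + 3) ^ 2 -
      27 * (((m : ℝ) + 2) ^ 2 + 1) * (2 * ((m : ℝ) + 1 + 3) ^ 2) =
      27 * (2 * (m : ℝ) ^ 3 + 0 + (((2 * ((m : ℝ) + 1 + 2) ^ 2 + 1) * ((m : ℝ) + 3) ^ 2 -
      (((m : ℝ) + 2) ^ 2 + 1) * (2 * ((m : ℝ) + 1 + 3) ^ 2)) - 2 * (m : ℝ) ^ 3)) := by ring
  nlinarith [pow_nonneg hm 2, pow_nonneg hm 3, pow_nonneg hm 4]

theorem a_mono : StrictMono a := by
  apply strictMono_nat_of_lt_succ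
  intro n
  rcases n with _ | _ | n
  · rw [a_eq, a_eq]; norm_num [s_zero, s_one, s_two]
  · rw [a_eq, a_eq]; norm_num [s_one, s_two, s_three]
  · exact a_step n

theorem a_lim : Tendsto a atTop (𝓝 27) := by
  rw [← tendsto_add_atTop_iff_nat 2]
  have key : ∀ c : ℝ, Tendsto (fun m : ℕ => 27 * (((m : ℝ) + 2) ^ 2 + c) / ((m : ℝ) + 3) ^ 2)
      atTop (𝓝 27) := by
    intro c
    have h0 : Tendsto (fun m : ℕ => (1 : ℝ) / ((m : ℝ) + 3)) atTop (𝓝 0) := by
      have := tendsto_one_div_add_atTop_nhds_zero_nat (𝕜 := ℝ)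
      have h' := (tendsto_add_atTop_iff_nat 2).2 this
      refine h'.congr (fun m => ?_)
      push_cast; ring
    have h1 : Tendsto (fun m : ℕ => 27 * ((1 - 1 / ((m : ℝ) + 3)) ^ 2 + c * (1 / ((m : ℝ) + 3)) ^ 2))
        atTop (𝓝 (27 * ((1 - 0) ^ 2 + c * 0 ^ 2))) :=
      (((tendsto_const_nhds.sub h0).pow 2).add ((h0.pow 2).const_mul c)).const_mul 27
    have e : (27 : ℝ) * ((1 - 0) ^ 2 + c * 0 ^ 2) = 27 := by ring
    rw [e] at h1
    refine h1.congr (fun m => ?_)
    have : ((m : ℝ) + 3) ≠ 0 := by positivity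
    field_simp
    ring
  refine tendsto_of_tendsto_of_tendsto_of_le_of_le (key (1 / 2)) (key 1) ?_ ?_
  · intro m
    have h := a_lower m
    refine le_trans (le_of_eq ?_) h
    have : ((m : ℝ) + 3) ≠ 0 := by positivity
    field_simp
  · intro m
    exact a_upper m

/-- `n log (s (n+1) / s n) - log (s n)` -/
noncomputable def D (n : ℕ) : ℝ := n * Real.log (s (n + 1)) - (n + 1) * Real.log (s n)

theorem log_b (n : ℕ) (hn : 1 ≤ n) : b n = Real.exp (D n / (n * (n + 1))) := by
  unfold b D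
  rw [S_eq, S_eq]
  have hn0 : (n : ℝ) ≠ 0 := by positivity
  have hn1 : (n : ℝ) + 1 ≠ 0 := by positivity
  rw [Real.rpow_def_of_pos (s_pos _), Real.rpow_def_of_pos (s_pos _), ← Real.exp_sub]
  congr 1
  field_simp

theorem D_succ (n : ℕ) : D (n + 1) - D n = (n + 1) * Real.log (a (n + 1) / a n) := by
  unfold D
  rw [a_eq, a_eq]
  have h0 := s_pos n
  have h1 := s_pos (n + 1)
  have h2 := s_pos (n + 2)
  rw [Real.log_div (by positivity) (by positivity), Real.log_div (by positivity) (by positivity),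
    Real.log_div (by positivity) (by positivity)]
  push_cast
  have e : s (n + 1 + 1) = s (n + 2) := rfl
  rw [e]
  ring

theorem a_pos (n : ℕ) : 0 < a n := by
  rw [a_eq]; exact div_pos (s_pos _) (s_pos _)

theorem D_mono (n : ℕ) : D n ≤ D (n + 1) := by
  have h := D_succ n
  have h1 : 1 < a (n + 1) / a n := by
    rw [lt_div_iff₀ (a_pos n), one_mul]; exact a_mono (Nat.lt_succ_self n)
  have h2 : 0 ≤ ((n : ℝ) + 1) * Real.log (a (n + 1) / a n) :=
    mul_nonneg (by positivity) (Real.log_pos h1).le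
  linarith

theorem D_two : Real.log 4 ≤ D 2 := by
  unfold D
  norm_num
  rw [s_two, s_three]
  have e : 2 * Real.log 381 - 3 * Real.log 27 = Real.log (381 ^ 2 / 27 ^ 3) := by
    rw [Real.log_div (by norm_num) (by norm_num), Real.log_pow, Real.log_pow]
    push_cast; ring
  rw [e]
  exact Real.log_le_log (by norm_num) (by norm_num)

theorem D_ge (m : ℕ) : Real.log 4 ≤ D (m + 2) := by
  induction m with
  | zero => exact D_two
  | succ m ih => exact ih.trans (D_mono (m + 2))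

theorem five_quarter : (5 : ℝ) / 4 < Real.log 4 := by
  have h : Real.log 4 = 2 * Real.log 2 := by
    rw [show (4 : ℝ) = 2 ^ 2 by norm_num, Real.log_pow]; push_cast; ring
  have := Real.log_two_gt_d9
  rw [h]; linarith

theorem delta_le (m : ℕ) : ((m : ℝ) + 2) * (m + 3) * Real.log (a (m + 3) / a (m + 2)) ≤ 5 / 2 := by
  have h1 := a_upper (m + 1)
  have h2 := a_lower m
  have e1 : m + 1 + 2 = m + 3 := by ring
  rw [e1] at h1
  push_cast at h1
  have hm : (0 : ℝ) ≤ m := Nat.cast_nonneg m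
  have h3 : Real.log (a (m + 3) / a (m + 2)) ≤ a (m + 3) / a (m + 2) - 1 :=
    Real.log_le_sub_one_of_pos (div_pos (a_pos _) (a_pos _))
  have h4 : a (m + 3) / a (m + 2) ≤
      (27 * (((m : ℝ) + 1 + 2) ^ 2 + 1) / ((m : ℝ) + 1 + 3) ^ 2) /
      (27 * (2 * ((m : ℝ) + 2) ^ 2 + 1) / (2 * ((m : ℝ) + 3) ^ 2)) :=
    div_le_div₀ (by positivity) h1 (by positivity) h2
  have h5 : ((m : ℝ) + 2) * (m + 3) * ((27 * (((m : ℝ) + 1 + 2) ^ 2 + 1) / ((m : ℝ) + 1 + 3) ^ 2) /
      (27 * (2 * ((m : ℝ) + 2) ^ 2 + 1) / (2 * ((m : ℝ) + 3) ^ 2)) - 1) ≤ 5 / 2 := by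
    rw [div_div_div_eq, div_sub_one (by positivity), mul_div_assoc', div_le_iff₀ (by positivity)]
    nlinarith [pow_nonneg hm 2, pow_nonneg hm 3, pow_nonneg hm 4, pow_nonneg hm 5]
  have h6 : Real.log (a (m + 3) / a (m + 2)) ≤
      (27 * (((m : ℝ) + 1 + 2) ^ 2 + 1) / ((m : ℝ) + 1 + 3) ^ 2) /
      (27 * (2 * ((m : ℝ) + 2) ^ 2 + 1) / (2 * ((m : ℝ) + 3) ^ 2)) - 1 := by linarith
  exact (mul_le_mul_of_nonneg_left h6 (by positivity)).trans h5

theorem b_anti (n : ℕ) (hn : 1 ≤ n) : b (n + 1) < b n := by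
  rw [log_b n hn, log_b (n + 1) (by omega)]
  apply Real.exp_lt_exp.2
  have hn0 : (0 : ℝ) < n := by positivity
  push_cast
  rw [div_lt_div_iff₀ (by positivity) (by positivity)]
  have hD := D_succ n
  have key : (n : ℝ) * (n + 1) * Real.log (a (n + 1) / a n) < 2 * D n := by
    rcases n with _ | _ | m
    · omega
    · norm_num
      have e1 : a 2 / a 1 = 381 * 3 / 27 ^ 2 := by
        rw [a_eq, a_eq, s_one, s_two, s_three]; norm_num
      have e2 : D 1 = Real.log 3 := by
        unfold D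
        norm_num
        rw [s_one, s_two, show (27 : ℝ) = 3 ^ 3 by norm_num, Real.log_pow]
        push_cast; ring
      rw [e1, e2]
      exact Real.log_lt_log (by norm_num) (by norm_num)
    · have h1 := delta_le m
      have h2 := D_ge m
      have h3 := five_quarter
      push_cast
      have e : (m : ℝ) + 1 + 1 = m + 2 := by ring
      have e' : (m : ℝ) + 2 + 1 = m + 3 := by ring
      rw [e, e']
      have e3 : m + 1 + 1 + 1 = m + 3 := by ring
      have e4 : m + 1 + 1 = m + 2 := by ring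
      rw [e3, e4]
      linarith
  have h1 : D (n + 1) * (n : ℝ) < (n + 2) * D n := by
    have : D (n + 1) = D n + (n + 1) * Real.log (a (n + 1) / a n) := by linarith
    rw [this]; linarith
  have h2 : 0 < ((n : ℝ) + 1) := by positivity
  have h3 := mul_lt_mul_of_pos_right h1 h2
  linarith

theorem s_ge_one (n : ℕ) : 1 ≤ s n := by
  rw [← S_eq]
  have : (0 : ℝ) < (S n : ℝ) := by rw [S_eq]; exact s_pos n
  have : 0 < S n := by exact_mod_cast this
  exact_mod_cast this

theorem b_lim : Tendsto b atTop (𝓝 1) := by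
  have h : Tendsto (fun n : ℕ => D n / ((n : ℝ) * (n + 1))) atTop (𝓝 0) := by
    have h27 : Tendsto (fun n : ℕ => Real.log 27 * (1 / ((n : ℝ) + 1))) atTop (𝓝 0) := by
      have := (tendsto_one_div_add_atTop_nhds_zero_nat (𝕜 := ℝ)).const_mul (Real.log 27)
      simpa using this
    refine squeeze_zero' ?_ ?_ h27
    · filter_upwards [eventually_ge_atTop 2] with n hn
      obtain ⟨m, rfl⟩ : ∃ m, n = m + 2 := ⟨n - 2, by omega⟩
      have h1 := D_ge m
      have h2 : 0 ≤ Real.log 4 := Real.log_nonneg (by norm_num)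
      apply div_nonneg (by linarith) (by positivity)
    · filter_upwards [eventually_ge_atTop 2] with n hn
      have hn0 : (0 : ℝ) < n := by
        have : 0 < n := by omega
        exact_mod_cast this
      have ha : a n ≤ 27 := a_mono.monotone.ge_of_tendsto a_lim n
      have h1 : Real.log (s (n + 1)) - Real.log (s n) ≤ Real.log 27 := by
        rw [← Real.log_div (s_pos _).ne' (s_pos _).ne', ← a_eq]
        exact Real.log_le_log (a_pos n) ha
      have h2 : 0 ≤ Real.log (s n) := Real.log_nonneg (s_ge_one n)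
      have h3 : D n ≤ n * Real.log 27 := by
        unfold D
        have := mul_le_mul_of_nonneg_left h1 hn0.le
        linarith
      rw [div_le_iff₀ (by positivity)]
      have e : Real.log 27 * (1 / ((n : ℝ) + 1)) * (n * (n + 1)) = n * Real.log 27 := by
        field_simp
      rw [e]; exact h3
  have h' := (Real.continuous_exp.tendsto 0).comp h
  rw [Real.exp_zero] at h'
  refine h'.congr' ?_
  filter_upwards [eventually_ge_atTop 1] with n hn
  rw [log_b n hn]; rfl

/-- Both assertions of the conjecture hold. -/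
theorem result : (StrictMono a ∧ Tendsto a atTop (𝓝 27)) ∧
    ((∀ n : ℕ, 1 ≤ n → b (n + 1) < b n) ∧ Tendsto b atTop (𝓝 1)) :=
  ⟨⟨a_mono, a_lim⟩, ⟨b_anti, b_lim⟩⟩

end Pool.Agent.Results.MP_b41085_nt.RatioRoot
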